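import Pool.Agent.N375.AV.D
import Pool.Agent.N375.AV.Ex
import Pool.Agent.Results.MP_f5a5f7_nt.StarshapedWeakAbc

/-!
# The weak abc conjecture for all numbers whose height is near the values of additive functions and their compositions

Let `F = f_1 ∘ ... ∘ f_k` be a composition of functions which are dominated by the largest prime factor (`PD`): additive
functions with `f(q^j) ≤ C q^j` for all prime powers and different values at different large primes, for example the sum of
the prime factors of `m` (with or without multiplicity), the largest prime factor of `m`, or Kempner's function (the least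
`k` such that `m` divides `k!`). Let `G` be a function with steps bounded below by a positive constant and growth at most
`v^d`, for example `G v = a v^d`. Let `K` be a number field of degree `D` and `κ > 1`. If
`d min (4 / (7 κ)) (20 / 37) + θ < 1` then for all `m ≤ N` but `A N exp (-c (log N)^(1 / (k + 1)))` ALL `x ∈ K`, `x ≠ 0, 1`,
with `|exp (D h(x)) - G (F m)| ≤ F(m)^θ` satisfy `h(x) < κ (cond(x) + cond(1/x) + cond(x - 1)) - b`, `b` any constant.

The values of `F` are taken with very large multiplicities and `F m` is in general much smaller than `m`, so this does not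
follow from the bound `O(X^(min (4 / (7 κ)) (20 / 37) + ε))` of the starting theorem `FewExceptions` for the number of the
exceptions with `exp (D h(x)) ≤ X` alone.
-/

set_option autoImplicit false

namespace Pool.Agent.Results.MP_f5a5f7_nt.AdditiveValues

open Pool.Agent.N733.TG (Expanding expanding_pow)
open Pool.Agent.N375.AV (PD comp good pd_additive pd_sopfr pd_largest pd_kempner)
open FewExceptions (height)
open StarshapedWeakAbc (Exc cond3)

/-- the conductor of the problem -/
noncomputable abbrev Cond {K : Type} [Field K] [NumberField K] (x : K) : ℝ := FewExceptions.cond x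

/-- **Weak abc near the values of additive functions and their compositions.** Let `K` be a number field of degree `D`,
`κ > 1`, `b` real, `θ ≥ 0`. Let `F = f_1 ∘ ... ∘ f_k` be a composition of functions with the property `PD` (`F = comp fs`,
`fs` the list of the `f_i`), let `G` have steps `≥ a > 0` and growth at most `v^d`, and
`d min (4 / (7 κ)) (20 / 37) + θ < 1`. There are `c > 0` and `A` such that for all `N ≥ 1` and all `m ≤ N` but
`A N exp (-c (log N)^(1 / (k + 1)))`, ALL `x ∈ K`, `x ≠ 0, 1`, with `|exp (D h(x)) - G (F m)| ≤ F(m)^θ` satisfy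
`h(x) < κ (cond(x) + cond(1/x) + cond(x - 1)) - b`. Additive functions with `f(q^j) ≤ C q^j` and different values at
different large primes (for example the sum of the prime factors), the largest prime factor and Kempner's function have the
property `PD`, and `α v^d` with `α > 0`, `d ≥ 1` is an example of `G`. -/
theorem result :
    (∀ (K : Type) [Field K] [NumberField K] (κ b : ℝ), 1 < κ →
      ∀ fs : List (ℕ → ℕ), (∀ f ∈ fs, PD f) → ∀ (G : ℕ → ℝ) (d : ℝ), Expanding G d → ∀ θ : ℝ, 0 ≤ θ →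
        d * min (4 / (7 * κ)) (20 / 37) + θ < 1 →
      ∃ c A : ℝ, 0 < c ∧ ∀ N : ℕ, 1 ≤ N →
        ({m : ℕ | 1 ≤ m ∧ m ≤ N ∧ ¬ ∀ x : K, x ≠ 0 → x ≠ 1 →
            |Real.exp ((Module.finrank ℚ K : ℝ) * height x) - G (comp fs m)| ≤ (comp fs m : ℝ) ^ θ →
            height x < κ * (Cond x + Cond x⁻¹ + Cond (x - 1)) - b}.ncard : ℝ) ≤
          A * N * Real.exp (-(c * Real.log N ^ ((1 : ℝ) / (fs.length + 1))))) ∧
    ((∀ f : ℕ → ℕ, (∀ a b : ℕ, Nat.Coprime a b → f (a * b) = f a + f b) →
        (∃ C : ℕ, ∀ q j : ℕ, q.Prime → 1 ≤ j → f (q ^ j) ≤ C * q ^ j) →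
        (∃ P : ℕ, ∀ p q : ℕ, p.Prime → q.Prime → P ≤ p → P ≤ q → f p = f q → p = q) → PD f) ∧
      PD (fun n => n.primeFactorsList.sum) ∧ PD (fun n => n.primeFactors.sup id) ∧
      PD (fun n => sInf {k : ℕ | n ∣ k.factorial})) ∧
    ∀ α d : ℝ, 0 < α → 1 ≤ d → Expanding (fun v => α * (v : ℝ) ^ d) d := by
  refine ⟨fun K _ _ κ b hκ fs hfs G d hG θ hθ h1 => ?_,
    ⟨fun f h1 h2 h3 => pd_additive h1 h2 h3, pd_sopfr, pd_largest, pd_kempner⟩,
    fun α d hα hd => expanding_pow hα hd⟩
  have hκ0 : 0 < κ := by linarith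
  obtain ⟨c, A, hc, hA⟩ := good (T := K) (fun x => x ≠ 0 ∧ x ≠ 1)
      (fun x => height x < κ * (Cond x + Cond x⁻¹ + Cond (x - 1)) - b)
      (fun x => Real.exp ((Module.finrank ℚ K : ℝ) * height x)) fs hfs hG
      (s := min (4 / (7 * κ)) (20 / 37)) (κ := θ) (le_min (by positivity) (by norm_num)) hθ h1 (by
    intro ε hε
    obtain ⟨C, hC⟩ := StarshapedWeakAbc.count K κ b hκ ε hε
    refine ⟨C, fun X hX => ?_⟩
    have e : {x : K | ((x ≠ 0 ∧ x ≠ 1) ∧ ¬ height x < κ * (Cond x + Cond x⁻¹ + Cond (x - 1)) - b) ∧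
        Real.exp ((Module.finrank ℚ K : ℝ) * height x) ≤ X} =
        {x | x ∈ Exc K κ b ∧ Real.exp ((Module.finrank ℚ K : ℝ) * height x) ≤ X} := by
      ext x
      constructor
      · rintro ⟨⟨⟨h1, h2⟩, h3⟩, h4⟩
        refine ⟨⟨h1, h2, ?_⟩, h4⟩
        show κ * (Cond x + Cond x⁻¹ + Cond (x - 1)) ≤ height x + b
        linarith [not_lt.1 h3]
      · rintro ⟨⟨h1, h2, h3⟩, h4⟩
        refine ⟨⟨⟨h1, h2⟩, ?_⟩, h4⟩
        have h5 : κ * (Cond x + Cond x⁻¹ + Cond (x - 1)) ≤ height x + b := h3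
        rw [not_lt]
        linarith
    rw [e]
    exact hC X hX)
  refine ⟨c, A, hc, fun N hN => le_trans ?_ (hA N hN)⟩
  have hfin : {m : ℕ | 1 ≤ m ∧ m ≤ N ∧ ¬ ∀ x : K, (x ≠ 0 ∧ x ≠ 1) →
      |Real.exp ((Module.finrank ℚ K : ℝ) * height x) - G (comp fs m)| ≤ (comp fs m : ℝ) ^ θ →
      height x < κ * (Cond x + Cond x⁻¹ + Cond (x - 1)) - b}.Finite :=
    (Set.finite_Icc 1 N).subset fun m hm => ⟨hm.1, hm.2.1⟩
  have hsub : {m : ℕ | 1 ≤ m ∧ m ≤ N ∧ ¬ ∀ x : K, x ≠ 0 → x ≠ 1 →
      |Real.exp ((Module.finrank ℚ K : ℝ) * height x) - G (comp fs m)| ≤ (comp fs m : ℝ) ^ θ →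
      height x < κ * (Cond x + Cond x⁻¹ + Cond (x - 1)) - b} ⊆
      {m : ℕ | 1 ≤ m ∧ m ≤ N ∧ ¬ ∀ x : K, (x ≠ 0 ∧ x ≠ 1) →
      |Real.exp ((Module.finrank ℚ K : ℝ) * height x) - G (comp fs m)| ≤ (comp fs m : ℝ) ^ θ →
      height x < κ * (Cond x + Cond x⁻¹ + Cond (x - 1)) - b} := by
    rintro m ⟨h2, h3, h4⟩
    exact ⟨h2, h3, fun h => h4 fun x hx0 hx1 => h x ⟨hx0, hx1⟩⟩
  exact_mod_cast Set.ncard_le_ncard hsub hfin

end Pool.Agent.Results.MP_f5a5f7_nt.AdditiveValues
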