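import Pool.Agent.N790.CM.C
import Pool.Agent.Results.MP_f5a5f7_nt.StarshapedWeakAbc

/-!
# The weak abc conjecture for all numbers whose height is near some multiple of Carmichael's function

Let `K` be a number field of degree `D`, `H_K(x) = exp (D h(x))`, `κ > 1`, and let `G` be a function with steps bounded
below by a positive constant and growth at most `v^d`, for example `G(v) = α v^d`. For almost all `m` (all `m ≤ N` but
`N / (log N)^U`, `U` arbitrary) and EVERY multiple `w ≤ N^B` of Carmichael's function `λ(m)`, ALL `x ∈ K`, `x ≠ 0, 1`, with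
`|H_K(x) - G w| ≤ w^θ` satisfy `h(x) < κ (cond(x) + cond(1/x) + cond(x - 1)) - b`, `b` any constant, if
`B (d min (4 / (7 κ)) (20 / 37) + θ) < 1`; for given `B`, `d` and `θ < 1 / B` this is so for all large `κ`. More generally
`w` is any common multiple of the values `f(p)`, `p` running through the large primes which divide `m` exactly once, where
`f` takes each positive value at boundedly many primes, for instance `f(p) = |P(p)|` with a nonconstant integer polynomial
`P`.

A single `m` has a power of `N` multiples of this kind, and a single `w ≤ N^B` can be a multiple of `λ(m)` for more than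
`N^(1 - ε)` numbers `m ≤ N` (popular values). So this does not follow from the size of the exceptional set. The proof uses
that outside a set of `N / (log N)^U` numbers `m ≤ N` every `w ≤ N^B` is a common multiple for at most `N^ε` of the `m`
(tool `N790/CM` of the starting files), and the power saving in the starting theorem `FewExceptions` of this problem.
-/

set_option autoImplicit false

namespace Pool.Agent.Results.MP_f5a5f7_nt.CarmichaelMultiples

open Pool.Agent.N733.TG (Expanding expanding_pow)
open Pool.Agent.N790.CM (FewTimes Carries OnMultiples keep_good fewTimes_pred fewTimes_poly pred_dvd_carmichael)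
open FewExceptions (height)
open StarshapedWeakAbc (Exc cond3)

/-- the conductor of the problem -/
noncomputable abbrev Cond {K : Type} [Field K] [NumberField K] (x : K) : ℝ := FewExceptions.cond x

/-- **Weak abc near the multiples of Carmichael's function.** Let `K` be a number field of degree `D`, `κ > 1`, `b` real,
let `G` have steps `≥ a > 0` and growth at most `v^d`, let `θ ≥ 0`, `B ≥ 1`,
`B (d min (4 / (7 κ)) (20 / 37) + θ) < 1`, and let `f` take each positive value at most `T` times at the primes. For every `U`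
and all large `N`, for all `m ≤ N` but `N / (log N)^U`: for EVERY `w` with `1 ≤ w ≤ N^B` and `f(p) ∣ w` for all primes
`p > exp (√(log N))` which divide `m` exactly once, ALL `x ∈ K`, `x ≠ 0, 1`, with `|exp (D h(x)) - G w| ≤ w^θ` satisfy
`h(x) < κ (cond(x) + cond(1/x) + cond(x - 1)) - b`. The function `f(p) = p - 1` takes each value at most once, and every
multiple of Carmichael's function `λ(m)` is divisible by `p - 1` for all `p ∣ m`; the function `|P(p)|`, `P` a nonconstant
integer polynomial, takes each positive value at most `2 deg P` times; and `α v^d` with `α > 0`, `d ≥ 1` is an example of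
`G`. -/
theorem result :
    (∀ (K : Type) [Field K] [NumberField K] (κ b : ℝ), 1 < κ →
      ∀ (G : ℕ → ℝ) (d : ℝ), Expanding G d → ∀ θ B : ℝ, 0 ≤ θ → 1 ≤ B →
        B * (d * min (4 / (7 * κ)) (20 / 37) + θ) < 1 →
      ∀ (f : ℕ → ℕ) (T : ℕ), FewTimes f T → ∀ U : ℕ, ∃ N₀ : ℕ, ∀ N : ℕ, N₀ ≤ N →
      ({m : ℕ | 1 ≤ m ∧ m ≤ N ∧ ¬ ∀ w : ℕ, 1 ≤ w → (w : ℝ) ≤ (N : ℝ) ^ B →
          Carries f (Real.exp √(Real.log N)) m w →
          ∀ x : K, x ≠ 0 → x ≠ 1 →
            |Real.exp ((Module.finrank ℚ K : ℝ) * height x) - G w| ≤ (w : ℝ) ^ θ →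
            height x < κ * (Cond x + Cond x⁻¹ + Cond (x - 1)) - b}.ncard : ℝ) ≤
        N / Real.log N ^ U) ∧
    (FewTimes (fun p => p - 1) 1 ∧
      ∀ (y : ℝ) (m w : ℕ), ArithmeticFunction.carmichael m ∣ w → Carries (fun p => p - 1) y m w) ∧
    (∀ P : Polynomial ℤ, 1 ≤ P.natDegree →
      FewTimes (fun p => (P.eval (p : ℤ)).natAbs) (2 * P.natDegree)) ∧
    ∀ α d : ℝ, 0 < α → 1 ≤ d → Expanding (fun v => α * (v : ℝ) ^ d) d := by
  refine ⟨fun K _ _ κ b hκ G d hG θ B hθ hB h1 => ?_,
    ⟨fewTimes_pred, fun y m w h p hp _ hpm _ => (pred_dvd_carmichael hp hpm).trans h⟩,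
    fewTimes_poly, fun α d hα hd => expanding_pow hα hd⟩
  have hκ0 : 0 < κ := by linarith
  have key : OnMultiples B (fun w => ∀ x : K, (x ≠ 0 ∧ x ≠ 1) →
      |Real.exp ((Module.finrank ℚ K : ℝ) * height x) - G w| ≤ (w : ℝ) ^ θ →
      height x < κ * (Cond x + Cond x⁻¹ + Cond (x - 1)) - b) := by
    refine keep_good (T := K) (fun x => x ≠ 0 ∧ x ≠ 1)
      (fun x => height x < κ * (Cond x + Cond x⁻¹ + Cond (x - 1)) - b)
      (fun x => Real.exp ((Module.finrank ℚ K : ℝ) * height x)) hG
      (s := min (4 / (7 * κ)) (20 / 37)) (κ := θ) (le_min (by positivity) (by norm_num)) hθ hB h1 ?_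
    intro ε hε
    obtain ⟨C, hC⟩ := StarshapedWeakAbc.count K κ b hκ ε hε
    refine ⟨C, fun X hX => ?_⟩
    have e : {x : K | ((x ≠ 0 ∧ x ≠ 1) ∧ ¬ height x < κ * (Cond x + Cond x⁻¹ + Cond (x - 1)) - b) ∧
        Real.exp ((Module.finrank ℚ K : ℝ) * height x) ≤ X} =
        {x | x ∈ Exc K κ b ∧ Real.exp ((Module.finrank ℚ K : ℝ) * height x) ≤ X} := by
      ext x
      constructor
      · rintro ⟨⟨⟨h1, h2⟩, h3⟩, h4⟩
        refine ⟨⟨h1, h2, ?_⟩, h4⟩
        show κ * (Cond x + Cond x⁻¹ + Cond (x - 1)) ≤ height x + b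
        linarith [not_lt.1 h3]
      · rintro ⟨⟨h1, h2, h3⟩, h4⟩
        refine ⟨⟨⟨h1, h2⟩, ?_⟩, h4⟩
        have h5 : κ * (Cond x + Cond x⁻¹ + Cond (x - 1)) ≤ height x + b := h3
        rw [not_lt]
        linarith
    rw [e]
    exact hC X hX
  exact key.mono fun w _ hw x h1 h2 => hw x ⟨h1, h2⟩

end Pool.Agent.Results.MP_f5a5f7_nt.CarmichaelMultiples
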