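import Pool.Agent.R942.HX.Torus
import Pool.Agent.Zk94.Tr.Fields
import Pool.Agent.Results.MP_f5a5f7_nt.NumbersNearAPoint

/-!
# The weak abc conjecture for all numbers which have digit strings in common with typical real numbers

We say that a real number `N` and `θ` have a common string of precision `ρ` in base `b` if
`|N / b ^ i - b ^ m θ - j| ≤ ρ` for some integer `j`, some `i` with `b ^ i ≤ b Y` and some `m ≤ Z`: about
`- log ρ / log b` consecutive digits of `N`, at any place, are consecutive digits of `θ`, at any place up to the `Z`-th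
digit.

Let `K` be a number field of degree `D` and let `N_1, …, N_r` be any real functions on `K`, for instance the numerator or
the denominator of `x` if `K = ℚ`, the coordinates of a multiple of `x` in an integral basis, norms, or the real and
imaginary parts of `x`. Let `θ = (θ_1, …, θ_r)` be outside a null set of `ℝ^r`. We consider the `x ∈ K`, `x ≠ 0, 1`, such that
each `N_k(x)` has a common string with `θ_k` of precision `H(x) ^ (-v)`, `H(x) = exp h(x)`, where `b ^ i ≤ b H(x) ^ w`, at any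
place up to the `H(x) ^ u`-th digit of `θ_k`.

(1) If `v > u`, then there is `κ > 1` such that ALL these `x` satisfy `h(x) ≤ κ (cond(x) + cond(1/x) + cond(x - 1) + 1)`, the
inequality of the question. So an arbitrarily small proportion of the digits, at any place, is enough.

(2) If `κ > 1` and `v > u + D min (4 / (7 κ)) (20 / 37) / r`, then all but finitely many of these `x` satisfy
`h(x) < κ (cond(x) + cond(1/x) + cond(x - 1)) - c`, for every `c`.

There is one null set for all bases `b`, all `u`, `v`, `κ`, `c` and all subfields `K` of `ℂ` of finite degree.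

The number of the exceptions is bounded in the starting result `FewExceptions` of this problem; the tool for digit strings is
`Pool.Agent.R942.HX` (starting file, used there for Hall's conjecture).
-/

set_option autoImplicit false

namespace Pool.Agent.Results.MP_f5a5f7_nt.CommonDigitStrings

open MeasureTheory Filter Topology
open FewExceptions (height)
open NumbersNearAPoint (cond3 expo expo_nonneg expo_tendsto height_nonneg cond_nonneg count)

/-- the conductor of the problem -/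
noncomputable abbrev Cond {K : Type} [Field K] [NumberField K] (x : K) : ℝ := FewExceptions.cond x

/-- `N` and `θ` have a common string of precision `ρ` in base `b`: `|N / b ^ i - b ^ m θ - j| ≤ ρ` for some integer `j`,
some `i` with `b ^ i ≤ b Y` and some `m ≤ Z` -/
def CommonString (b : ℕ) (θ Y Z ρ N : ℝ) : Prop :=
  ∃ i m : ℕ, ∃ j : ℤ, (b : ℝ) ^ i ≤ b * Y ∧ (m : ℝ) ≤ Z ∧ |N / (b : ℝ) ^ i - (b : ℝ) ^ m * θ - j| ≤ ρ

/-- each `N_k(x)` has a common string with `θ_k` of precision `H(x) ^ (-v)`, `b ^ i ≤ b H(x) ^ w`, at any place up to the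
`H(x) ^ u`-th digit of `θ_k`; `H(x) = exp h(x)` -/
def Strings {K : Type} [Field K] [NumberField K] (b : ℕ) {r : ℕ} (θ : Fin r → ℝ) (N : Fin r → K → ℝ) (w u v : ℝ)
    (x : K) : Prop :=
  ∀ k, CommonString b (θ k) (Real.exp (height x) ^ w) (Real.exp (height x) ^ u) (Real.exp (height x) ^ (-v)) (N k x)

open Pool.Agent.R942.HX (Sparse)

section
variable {K : Type} [Field K] [NumberField K]

/-- the exceptions to the inequality with the constants `κ`, `c` -/
def Bad (K : Type) [Field K] [NumberField K] (κ c : ℝ) : Set K :=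
  {x : K | x ≠ 0 ∧ x ≠ 1 ∧ κ * cond3 x ≤ height x + c}

lemma sparse {κ c : ℝ} (hκ : 1 < κ) : Sparse (fun x : K => Real.exp (height x)) (Bad K κ c) (expo K κ) :=
  ⟨fun x _ => Real.one_le_exp (height_nonneg x), fun _ hε => count hκ hε⟩

lemma cond3_nonneg (x : K) : 0 ≤ cond3 x :=
  add_nonneg (add_nonneg (cond_nonneg _) (cond_nonneg _)) (cond_nonneg _)

/-- a rational `a ≤ κ` with the same property -/
lemma approx {κ u v : ℝ} {r : ℕ} (hr : 1 ≤ r) (hκ : 1 < κ) (h : u + expo K κ / r < v) :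
    ∃ a : ℚ, (1 : ℝ) < a ∧ (a : ℝ) ≤ κ ∧ u + expo K (a : ℝ) / r < v := by
  have hr0 : (0 : ℝ) < r := by exact_mod_cast (by omega : 0 < r)
  have hcont : ContinuousAt (fun t : ℝ => u + expo K t / r) κ := by
    unfold expo
    have h0 : (7 : ℝ) * κ ≠ 0 := by positivity
    fun_prop (disch := exact h0)
  have h1 : ∀ᶠ t in 𝓝 κ, u + expo K t / r < v := hcont.eventually_lt continuousAt_const h
  obtain ⟨δ, hδ, hball⟩ := Metric.eventually_nhds_iff.1 h1
  obtain ⟨a, ha1, ha2⟩ := exists_rat_btwn (show max 1 (κ - δ) < κ from max_lt hκ (by linarith))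
  refine ⟨a, (le_max_left _ _).trans_lt ha1, ha2.le, hball ?_⟩
  have ha3 := (le_max_right 1 (κ - δ)).trans_lt ha1
  rw [Real.dist_eq, abs_lt]
  constructor <;> linarith

/-- one field: finitely many exceptions, one null set for all constants -/
lemma fin_all {r : ℕ} (hr : 1 ≤ r) (N : Fin r → K → ℝ) {w : ℝ} (hw : 0 ≤ w) :
    ∀ᵐ θ : Fin r → ℝ, ∀ b : ℕ, 2 ≤ b → ∀ u v κ c : ℝ, 0 ≤ u → 1 < κ → u + expo K κ / r < v →
      {x : K | x ∈ Bad K κ c ∧ Strings b θ N w u v x}.Finite := by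
  have key : ∀ᵐ θ : Fin r → ℝ, ∀ (a : ℚ) (j : ℕ), (1 : ℝ) < a → ∀ b : ℕ, 2 ≤ b → ∀ u v : ℝ, 0 ≤ u →
      u + expo K (a : ℝ) / r < v → {x : K | x ∈ Bad K a j ∧ Strings b θ N w u v x}.Finite := by
    rw [ae_all_iff]
    intro a
    rw [ae_all_iff]
    intro j
    by_cases h : (1 : ℝ) < a
    · filter_upwards [(sparse (K := K) (κ := a) (c := j) h).several (expo_nonneg h) hr N hw] with θ hθ _
      exact hθ
    · filter_upwards with θ h1
      exact absurd h1 h
  filter_upwards [key] with θ hθ b hb u v κ c hu hκ hv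
  obtain ⟨a, ha1, ha2, ha3⟩ := approx hr hκ hv
  obtain ⟨j, hj⟩ := exists_nat_ge c
  refine (hθ a j ha1 b hb u v hu ha3).subset ?_
  rintro x ⟨⟨h0, h1, h2⟩, h3⟩
  refine ⟨⟨h0, h1, ?_⟩, h3⟩
  have := mul_le_mul_of_nonneg_right ha2 (cond3_nonneg x)
  linarith

/-- from finitely many exceptions to none -/
lemma all_of {r : ℕ} (hr : 1 ≤ r) {S : K → Prop} {u v : ℝ} (huv : u < v)
    (h : ∀ κ c : ℝ, 1 < κ → u + expo K κ / r < v → {x : K | x ∈ Bad K κ c ∧ S x}.Finite) :
    ∃ κ : ℝ, 1 < κ ∧ ∀ x : K, x ≠ 0 → x ≠ 1 → S x → height x ≤ κ * (Cond x + Cond x⁻¹ + Cond (x - 1) + 1) := by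
  have hr0 : (0 : ℝ) < r := by exact_mod_cast (by omega : 0 < r)
  have ht : Tendsto (fun j : ℕ => u + expo K ((j : ℝ) + 2) / r) atTop (𝓝 u) := by
    have h1 := ((expo_tendsto (K := K)).div_const (r : ℝ)).const_add u
    simpa using h1
  obtain ⟨j, hj⟩ := (ht.eventually_lt_const huv).exists
  have hj0 : (0 : ℝ) ≤ (j : ℝ) := Nat.cast_nonneg j
  have hfin := h ((j : ℝ) + 2) 0 (by linarith) hj
  obtain ⟨M, hM⟩ := (hfin.image fun x => height x).bddAbove
  refine ⟨max ((j : ℝ) + 2) M, lt_of_lt_of_le (by linarith) (le_max_left _ _), fun x h0 h1 h2 => ?_⟩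
  have hc : 0 ≤ Cond x + Cond x⁻¹ + Cond (x - 1) := cond3_nonneg x
  by_cases h3 : ((j : ℝ) + 2) * cond3 x ≤ height x + 0
  · have h4 : height x ≤ M := hM ⟨x, ⟨⟨h0, h1, h3⟩, h2⟩, rfl⟩
    have h5 := le_max_right ((j : ℝ) + 2) M
    have h6 := le_max_left ((j : ℝ) + 2) M
    nlinarith
  · push Not at h3
    unfold cond3 at h3
    have h6 := le_max_left ((j : ℝ) + 2) M
    nlinarith

lemma bad_of {κ c : ℝ} {x : K} (h0 : x ≠ 0) (h1 : x ≠ 1)
    (h : ¬ height x < κ * (Cond x + Cond x⁻¹ + Cond (x - 1)) - c) : x ∈ Bad K κ c := by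
  refine ⟨h0, h1, ?_⟩
  unfold cond3
  linarith [not_lt.1 h]

end

/-- **Theorem.** Let `r ≥ 1` and `w ≥ 0`.

(A) Let `K` be a number field of degree `D` and let `N_1, …, N_r` be any real functions on `K`. For almost all `θ` in `ℝ^r`, for
all `b ≥ 2`, `u ≥ 0` and `v`: (1) if `v > u` there is `κ > 1` such that ALL `x ∈ K`, `x ≠ 0, 1`, for which each `N_k(x)` has a
common string with `θ_k` of precision `H(x) ^ (-v)`, `b ^ i ≤ b H(x) ^ w`, at any place up to the `H(x) ^ u`-th digit of `θ_k`,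
satisfy `h(x) ≤ κ (cond(x) + cond(1/x) + cond(x - 1) + 1)`; (2) if `κ > 1` and
`v > u + D min (4 / (7 κ)) (20 / 37) / r`, then for every `c` all but finitely many of these `x` satisfy
`h(x) < κ (cond(x) + cond(1/x) + cond(x - 1)) - c`.

(B) For real functions `N_(K,1), …, N_(K,r)` on all the subfields `K` of `ℂ` of finite degree, (1) and (2) hold for almost all
`θ` in `ℝ^r` and all these `K` simultaneously. -/
theorem result (r : ℕ) (hr : 1 ≤ r) (w : ℝ) (hw : 0 ≤ w) :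
    (∀ (K : Type) [Field K] [NumberField K] (N : Fin r → K → ℝ), ∀ᵐ θ : Fin r → ℝ, ∀ b : ℕ, 2 ≤ b →
      ∀ u v : ℝ, 0 ≤ u →
      (u < v → ∃ κ : ℝ, 1 < κ ∧ ∀ x : K, x ≠ 0 → x ≠ 1 → Strings b θ N w u v x →
        height x ≤ κ * (Cond x + Cond x⁻¹ + Cond (x - 1) + 1)) ∧
      (∀ κ c : ℝ, 1 < κ → u + Module.finrank ℚ K * min (4 / (7 * κ)) (20 / 37) / r < v →
        {x : K | x ≠ 0 ∧ x ≠ 1 ∧ Strings b θ N w u v x ∧
          ¬ height x < κ * (Cond x + Cond x⁻¹ + Cond (x - 1)) - c}.Finite)) ∧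
    (∀ N : (K : IntermediateField ℚ ℂ) → Fin r → K → ℝ, ∀ᵐ θ : Fin r → ℝ,
      ∀ (K : IntermediateField ℚ ℂ) [NumberField K], ∀ b : ℕ, 2 ≤ b → ∀ u v : ℝ, 0 ≤ u →
      (u < v → ∃ κ : ℝ, 1 < κ ∧ ∀ x : K, x ≠ 0 → x ≠ 1 → Strings b θ (N K) w u v x →
        height x ≤ κ * (Cond x + Cond x⁻¹ + Cond (x - 1) + 1)) ∧
      (∀ κ c : ℝ, 1 < κ → u + Module.finrank ℚ K * min (4 / (7 * κ)) (20 / 37) / r < v →
        {x : K | x ≠ 0 ∧ x ≠ 1 ∧ Strings b θ (N K) w u v x ∧
          ¬ height x < κ * (Cond x + Cond x⁻¹ + Cond (x - 1)) - c}.Finite)) := by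
  have one : ∀ (K : Type) [Field K] [NumberField K] (N : Fin r → K → ℝ), ∀ᵐ θ : Fin r → ℝ, ∀ b : ℕ, 2 ≤ b →
      ∀ u v : ℝ, 0 ≤ u →
      (u < v → ∃ κ : ℝ, 1 < κ ∧ ∀ x : K, x ≠ 0 → x ≠ 1 → Strings b θ N w u v x →
        height x ≤ κ * (Cond x + Cond x⁻¹ + Cond (x - 1) + 1)) ∧
      (∀ κ c : ℝ, 1 < κ → u + Module.finrank ℚ K * min (4 / (7 * κ)) (20 / 37) / r < v →
        {x : K | x ≠ 0 ∧ x ≠ 1 ∧ Strings b θ N w u v x ∧
          ¬ height x < κ * (Cond x + Cond x⁻¹ + Cond (x - 1)) - c}.Finite) := by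
    intro K _ _ N
    filter_upwards [fin_all hr N hw] with θ hθ b hb u v hu
    refine ⟨fun huv => all_of hr huv (fun κ c hκ hv => hθ b hb u v κ c hu hκ hv), fun κ c hκ hv => ?_⟩
    refine (hθ b hb u v κ c hu hκ hv).subset ?_
    rintro x ⟨h0, h1, h2, h3⟩
    exact ⟨bad_of h0 h1 h3, h2⟩
  refine ⟨fun K _ _ N => one K N, fun N => ?_⟩
  have := Pool.Agent.Zk94.Tr.countable_fields
  have h1 : ∀ᵐ θ : Fin r → ℝ, ∀ (K : {K : IntermediateField ℚ ℂ // NumberField K}), ∀ [NumberField K.1],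
      ∀ b : ℕ, 2 ≤ b → ∀ u v : ℝ, 0 ≤ u →
      (u < v → ∃ κ : ℝ, 1 < κ ∧ ∀ x : K.1, x ≠ 0 → x ≠ 1 → Strings b θ (N K.1) w u v x →
        height x ≤ κ * (Cond x + Cond x⁻¹ + Cond (x - 1) + 1)) ∧
      (∀ κ c : ℝ, 1 < κ → u + Module.finrank ℚ K.1 * min (4 / (7 * κ)) (20 / 37) / r < v →
        {x : K.1 | x ≠ 0 ∧ x ≠ 1 ∧ Strings b θ (N K.1) w u v x ∧
          ¬ height x < κ * (Cond x + Cond x⁻¹ + Cond (x - 1)) - c}.Finite) := by
    rw [ae_all_iff]
    rintro ⟨K, hK⟩
    filter_upwards [one K (N K)] with θ hθ _ b hb u v hu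
    exact hθ b hb u v hu
  filter_upwards [h1] with θ hθ K hK b hb u v hu
  exact hθ ⟨K, hK⟩ b hb u v hu

end Pool.Agent.Results.MP_f5a5f7_nt.CommonDigitStrings
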