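import Pool.Agent.Zk73.OR.F
import Pool.Agent.Results.MP_f5a5f7_nt.StarshapedWeakAbc

/-!
# The weak abc conjecture near multiplicative orders and near all exponents `w` with `m ∣ a ^ w - 1`

Let `K` be a number field of degree `D`, `H_K(x) = exp (D h(x))`, `κ > 1`, `b` any constant, and let `G` have steps bounded
below by a positive constant and growth at most `v^d`, for example `G(v) = α v^d`. Let `θ = d min (4 / (7 κ)) (20 / 37) + t`.
ALL `x ∈ K`, `x ≠ 0, 1`, with `|H_K(x) - G w| ≤ w^t` satisfy `h(x) < κ (cond(x) + cond(1/x) + cond(x - 1)) - b`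

* for `w` the multiplicative order of `a` modulo `p` (the period length of `1 / p` in base `a`), for all integers `a` with
  `2 ≤ |a| ≤ p ^ c`, `c < 1`, and all primes `p ≤ N` but `O (N ^ (1 - η))`, if `θ < 1`,
* for every divisor `w ≥ m ^ δ` of every integer near `m`, for all `m ≤ N` but `O (N ^ (1 - η))`, if `θ < 1`,
* for EVERY exponent `w ≤ N ^ B` with `m ∣ a ^ w - 1` for some `a` with `2 ≤ |a| ≤ exp (c' √(log N))`, for all `m ≤ N` but
  `N / (log N) ^ A`, if `B θ < 1 / 2`; for instance for all multiples of the period length of `1 / m`,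
* for EVERY `w ≤ N ^ B` with `gcd (w, p - 1) ≥ p ^ (1 - l)` for all large primes `p` dividing `m` exactly once, for all
  `m ≤ N` but `N / (log N) ^ A`, if `B θ + l < 1`.

The tool (`Pool/Agent/Zk73/OR`): a set with `O(X^θ)` elements up to `X` is avoided by the orders modulo almost all primes and by
the large divisors of almost all integers if `θ < 1`; and outside a set of `N / (log N)^A` numbers `m ≤ N`, every `w ≤ N^B` has
`gcd (w, p - 1) ≥ p^(1 - l)` for all large `p ∣ m` for at most `N^(l + ε)` of the `m`. For every `l > 0`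
all multiples of Carmichael's function `λ(m)` are among these `w`; so this extends the tool `N790/CM` of the starting files.
-/

set_option autoImplicit false

namespace Pool.Agent.Results.MP_f5a5f7_nt.MultiplicativeOrders

open Pool.Agent.N733.TG (Expanding expanding_pow)
open Pool.Agent.Zk73.OR (Everywhere keep_good)
open FewExceptions (height)
open StarshapedWeakAbc (Exc cond3)

/-- the conductor of the problem -/
noncomputable abbrev Cond {K : Type} [Field K] [NumberField K] (x : K) : ℝ := FewExceptions.cond x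

/-- **Theorem.** Let `K` be a number field of degree `D`, `κ > 1`, `b` real, let `G` have steps `≥ a > 0` and growth at most
`v^d`, for example `G v = α v ^ d` with `α > 0`, `d ≥ 1`, and let `0 ≤ t ≤ 1`. The four statements of `Everywhere`, about
divisors of almost all integers, orders modulo almost all primes, numbers sharing large divisors with `p - 1` for the large
primes `p` dividing `m`, and exponents `w` with `m ∣ a ^ w - 1`, hold with `θ = d min (4 / (7 κ)) (20 / 37) + t` for the
property: ALL `x ∈ K`, `x ≠ 0, 1`, with `|exp (D h(x)) - G w| ≤ w^t` satisfy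
`h(x) < κ (cond(x) + cond(1/x) + cond(x - 1)) - b`. -/
theorem result :
    (∀ (K : Type) [Field K] [NumberField K] (κ b : ℝ), 1 < κ →
      ∀ (G : ℕ → ℝ) (d : ℝ), Expanding G d → ∀ t : ℝ, 0 ≤ t → t ≤ 1 →
      Everywhere (d * min (4 / (7 * κ)) (20 / 37) + t) (fun w => ∀ x : K, x ≠ 0 → x ≠ 1 →
        |Real.exp ((Module.finrank ℚ K : ℝ) * height x) - G w| ≤ (w : ℝ) ^ t →
        height x < κ * (Cond x + Cond x⁻¹ + Cond (x - 1)) - b)) ∧
    ∀ α d : ℝ, 0 < α → 1 ≤ d → Expanding (fun v => α * (v : ℝ) ^ d) d := by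
  refine ⟨fun K _ _ κ b hκ G d hG t ht ht1 => ?_, fun α d hα hd => expanding_pow hα hd⟩
  have hκ0 : 0 < κ := by linarith
  have key : Everywhere (d * min (4 / (7 * κ)) (20 / 37) + t) (fun w => ∀ x : K, (x ≠ 0 ∧ x ≠ 1) →
      |Real.exp ((Module.finrank ℚ K : ℝ) * height x) - G w| ≤ (w : ℝ) ^ t →
      height x < κ * (Cond x + Cond x⁻¹ + Cond (x - 1)) - b) := by
    refine keep_good (T := K) (fun x => x ≠ 0 ∧ x ≠ 1)
      (fun x => height x < κ * (Cond x + Cond x⁻¹ + Cond (x - 1)) - b)
      (fun x => Real.exp ((Module.finrank ℚ K : ℝ) * height x)) hG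
      (s := min (4 / (7 * κ)) (20 / 37)) (κ := t) (le_min (by positivity) (by norm_num)) ht ht1 ?_
    intro ε hε
    obtain ⟨C, hC⟩ := StarshapedWeakAbc.count K κ b hκ ε hε
    refine ⟨C, fun X hX => ?_⟩
    have e : {x : K | ((x ≠ 0 ∧ x ≠ 1) ∧ ¬ height x < κ * (Cond x + Cond x⁻¹ + Cond (x - 1)) - b) ∧
        Real.exp ((Module.finrank ℚ K : ℝ) * height x) ≤ X} =
        {x | x ∈ Exc K κ b ∧ Real.exp ((Module.finrank ℚ K : ℝ) * height x) ≤ X} := by
      ext x
      constructor
      · rintro ⟨⟨⟨h1, h2⟩, h3⟩, h4⟩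
        refine ⟨⟨h1, h2, ?_⟩, h4⟩
        show κ * (Cond x + Cond x⁻¹ + Cond (x - 1)) ≤ height x + b
        linarith [not_lt.1 h3]
      · rintro ⟨⟨h1, h2, h3⟩, h4⟩
        refine ⟨⟨⟨h1, h2⟩, ?_⟩, h4⟩
        have h5 : κ * (Cond x + Cond x⁻¹ + Cond (x - 1)) ≤ height x + b := h3
        rw [not_lt]
        linarith
    rw [e]
    exact hC X hX
  exact key.mono fun w _ hw x h1 h2 => hw x ⟨h1, h2⟩

end Pool.Agent.Results.MP_f5a5f7_nt.MultiplicativeOrders
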